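import Pool.Agent.Helper57.AKY.Q
import Pool.Agent.Helper39.CK.KX
import Pool.Agent.Helper57.KNK.PK4
import Pool.Agent.Helper57.KNC.PK5
import Pool.Agent.Helper57.KNC.PK6

/-!
Near cells with the fast algebra `AY` (MP_c75db0): machines, run data, families, and the theorems
which carry an accepted test over to the old machine.
-/

set_option autoImplicit false
set_option exponentiation.threshold 4000
noncomputable section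
namespace Pool.Agent.Helper39.AKY

open Pool.Agent.Helper86.CX hiding nb gM
open Pool.Agent.Helper86.CT (Alg Mo Mc Mq Pr N3 Cls mkCls addM subM mulM conjM invM invOK Vx Sv)
open Pool.Agent.Helper86.CK
open Pool.Agent.Helper57.KNB (FDT BXT Ar H6 arT Lw famR chBN chBNs reT imT csT wdT nbT dotT)
open Pool.Agent.Helper57.KNK (ltK LwK VK arK famK chBK chBKs)
open Pool.Agent.Helper57.KNC (arN famQ chBQ chBQs)
open Pool.Agent.Helper39.CKX (psX)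
open Pool.Agent.Helper86.C75 (Z)
open Pool.Agent.Helper90.KMO (zv)
open Pool.Agent.Helper86.CT (prad)
open Pool.Agent.Helper86.CK (up_h up_hs gU truL fls_h)
open Pool.Agent.Helper57.KNB (SH D3)
open Pool.Agent.Helper57.KNK (N9 AC am low rC rG qS st1 smA ac0 tst2 reK imK)

/-! ### sums of forms -/

/-- `t + z`, `z - t` -/
def amP1 (t : Nat) (z : Z) : Z :=
  Z.rec (motive := fun _ => Z) (fun c => Z.p (Nat.add t c)) (fun c => Pool.Agent.Helper57.AKY.zs t c) z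
def amM1 (t : Nat) (z : Z) : Z :=
  Z.rec (motive := fun _ => Z) (fun c => Pool.Agent.Helper57.AKY.zs c t) (fun c => Z.m (Nat.add t c)) z
def amP (a : Nat) (x z : Z) : Z :=
  Z.rec (motive := fun _ => Z) (fun b => amP1 (Nat.mul a b) z) (fun b => amM1 (Nat.mul a b) z) x
def amM (a : Nat) (x z : Z) : Z :=
  Z.rec (motive := fun _ => Z) (fun b => amM1 (Nat.mul a b) z) (fun b => amP1 (Nat.mul a b) z) x
/-- `f x + z` -/
def amY (f x z : Z) : Z := Z.rec (motive := fun _ => Z) (fun a => amP a x z) (fun a => amM a x z) f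

theorem zs_eq (a b : Nat) : Pool.Agent.Helper57.AKY.zs a b = Z.sub' a b := by
  unfold Pool.Agent.Helper57.AKY.zs Z.sub'
  cases Nat.ble b a <;> rfl

theorem amY_eq : amY = am := by
  funext f x z
  cases f with
  | p a => cases x with
    | p b => cases z with
      | p c =>
        show Z.p (Nat.add (Nat.mul a b) c) = Z.p (Nat.add c (Nat.mul b a))
        show Z.p (a * b + c) = Z.p (c + b * a)
        rw [Nat.mul_comm a b, Nat.add_comm]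
      | m c =>
        show Pool.Agent.Helper57.AKY.zs (Nat.mul a b) c = Z.sub'' c (Nat.mul b a)
        rw [zs_eq, show Nat.mul a b = Nat.mul b a from Nat.mul_comm a b]
        rfl
    | m b => cases z with
      | p c =>
        show Pool.Agent.Helper57.AKY.zs c (Nat.mul a b) = Z.sub' c (Nat.mul b a)
        rw [zs_eq, show Nat.mul a b = Nat.mul b a from Nat.mul_comm a b]
      | m c =>
        show Z.m (a * b + c) = Z.m (c + b * a)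
        rw [Nat.mul_comm a b, Nat.add_comm]
  | m a => cases x with
    | p b => cases z with
      | p c =>
        show Pool.Agent.Helper57.AKY.zs c (Nat.mul a b) = Z.sub' c (Nat.mul b a)
        rw [zs_eq, show Nat.mul a b = Nat.mul b a from Nat.mul_comm a b]
      | m c =>
        show Z.m (a * b + c) = Z.m (c + b * a)
        rw [Nat.mul_comm a b, Nat.add_comm]
    | m b => cases z with
      | p c =>
        show Z.p (a * b + c) = Z.p (c + b * a)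
        rw [Nat.mul_comm a b, Nat.add_comm]
      | m c =>
        show Pool.Agent.Helper57.AKY.zs (Nat.mul a b) c = Z.sub'' c (Nat.mul b a)
        rw [zs_eq, show Nat.mul a b = Nat.mul b a from Nat.mul_comm a b]
        rfl

/-! ### values at the vertices -/

def ucP (W a : Nat) (y : Z) : Z :=
  Z.rec (motive := fun _ => Z) (fun b => Z.p (Nat.add a (Nat.mul W b)))
    (fun b => Pool.Agent.Helper57.AKY.zs a (Nat.mul W b)) y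
def ucM (W a : Nat) (y : Z) : Z :=
  Z.rec (motive := fun _ => Z) (fun b => Pool.Agent.Helper57.AKY.zs (Nat.mul W b) a)
    (fun b => Z.m (Nat.add a (Nat.mul W b))) y
/-- `x + W y` -/
def uc (W : Nat) (x y : Z) : Z := Z.rec (motive := fun _ => Z) (fun a => ucP W a y) (fun a => ucM W a y) x
/-- `E z` -/
def mE (E : Nat) (z : Z) : Z :=
  Z.rec (motive := fun _ => Z) (fun b => Z.p (Nat.mul E b)) (fun b => Z.m (Nat.mul E b)) z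
/-- at most `L` in absolute value -/
def abL (L : Nat) (z : Z) : Bool :=
  Z.rec (motive := fun _ => Bool) (fun n => Nat.ble n L) (fun n => Nat.ble n L) z
def cdL (L : Nat) (c : Cx) : Bool := Bool.rec (motive := fun _ => Bool) false (abL L c.im) (abL L c.re)

theorem uc_eq (W : Nat) (x y : Z) : uc W x y = Z.add x (Z.mul (Z.p W) y) := by
  cases x with
  | p a => cases y with
    | p b =>
      show Z.p (a + W * b) = Z.p (b * W + a)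
      rw [Nat.mul_comm W b, Nat.add_comm]
    | m b =>
      show Pool.Agent.Helper57.AKY.zs a (Nat.mul W b) = Z.sub'' (Nat.mul b W) a
      rw [zs_eq, show Nat.mul W b = Nat.mul b W from Nat.mul_comm W b]
      rfl
  | m a => cases y with
    | p b =>
      show Pool.Agent.Helper57.AKY.zs (Nat.mul W b) a = Z.sub' (Nat.mul b W) a
      rw [zs_eq, show Nat.mul W b = Nat.mul b W from Nat.mul_comm W b]
    | m b =>
      show Z.m (a + W * b) = Z.m (b * W + a)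
      rw [Nat.mul_comm W b, Nat.add_comm]
theorem mE_eq (E : Nat) (z : Z) : mE E z = Z.mul (Z.p E) z := by
  cases z with
  | p b => exact congrArg Z.p (Nat.mul_comm E b)
  | m b => exact congrArg Z.m (Nat.mul_comm E b)
theorem abL_eq (L : Nat) (z : Z) : abL L z = Nat.ble (ab z) L := by
  cases z <;> rfl
theorem cdL_eq (C : LC) (c : Cx) :
    cdL (Nat.shiftRight (nat_lit 1152921504606846976) C.D) c = cD C c := by
  unfold cdL cD andB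
  rw [abL_eq, abL_eq]

section
variable {D : ℕ}
def sm9Y (g : Z → Z → Z → Z) (f : Z) (h : H6 (Mo (PA D))) (z : N9) : N9 :=
  ⟨g f h.a.v.re z.a, g f h.b.v.re z.b, g f h.c.v.re z.c, g f h.x.v.re z.d,
    g f h.x.v.im z.e, g f h.y.v.re z.f, g f h.y.v.im z.g, g f h.w.v.re z.h,
    g f h.w.v.im z.i⟩
def okHY (s : Mo (PA D)) (h : H6 (Mo (PA D))) (b : Bool) : Bool :=
  Bool.rec (motive := fun _ => Bool) false (Bool.rec (motive := fun _ => Bool) false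
    (Bool.rec (motive := fun _ => Bool) false (Bool.rec (motive := fun _ => Bool) false
    (Bool.rec (motive := fun _ => Bool) false (Bool.rec (motive := fun _ => Bool) false
    (Bool.rec (motive := fun _ => Bool) false b h.w.v.ok) h.y.v.ok) h.x.v.ok) h.c.v.ok) h.b.v.ok) h.a.v.ok) s.v.ok
def stKY (g : Z → Z → Z → Z) (s : Mo (PA D)) (h : H6 (Mo (PA D))) (z : AC) : AC :=
  ⟨sm9Y g (low s.v.re) h z.K, z.G, rC s h z.R, qS s h z.Q, okHY s h z.ok⟩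
def stGY (g : Z → Z → Z → Z) (s : Mo (PA D)) (h : H6 (Mo (PA D))) (z : AC) : AC :=
  ⟨z.K, sm9Y g s.v.re h z.G, rG s h z.R, qS s h z.Q, okHY s h z.ok⟩
def st1Y (g : Z → Z → Z → Z) (x : SH (Mo (PA D)) (H6 (Mo (PA D)))) (z : AC) : AC :=
  Bool.rec (motive := fun _ => AC) (stGY g x.s x.h z) (stKY g x.s x.h z) x.s.v.k
def smAY (g : Z → Z → Z → Z) (l : List (SH (Mo (PA D)) (H6 (Mo (PA D))))) : AC :=
  List.rec (motive := fun _ => AC) ac0 (fun x _ ih => st1Y g x ih) l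
def ltG (g : Z → Z → Z → Z) (C : LC) (d : D3) (l : List (SH (Mo (PA D)) (H6 (Mo (PA D))))) : Bool :=
  tst2 C d (smAY g l)
/-- the test of a sum of forms -/
def ltY (C : LC) (d : D3) (l : List (SH (Mo (PA D)) (H6 (Mo (PA D))))) : Bool := tst2 C d (smAY amY l)

theorem smAY_eq (l : List (SH (Mo (PA D)) (H6 (Mo (PA D))))) : smAY am l = smA VK l := by
  induction l with
  | nil => rfl
  | cons x l ih =>
    show st1Y am x (smAY am l) = st1 VK x (smA VK l)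
    rw [ih]
    rfl
theorem ltY_eq (C : LC) : (ltY C : D3 → List (SH (Mo (PA D)) (H6 (Mo (PA D)))) → Bool) = ltK C VK := by
  funext d l
  show tst2 C d (smAY amY l) = tst2 C d (smA VK l)
  rw [amY_eq, smAY_eq]
end


/-! ### depth 1 -/

abbrev M1 := Mc (PA 1) (Pr Nat) (PZ 1) (N3 VR) (GK 1)
abbrev T1 := (Pr Nat) → FDT (Pr Nat) → Mo (PA 1) → Mo (PA 1) → Mo (PA 1) → Mo (PA 1) → Mo (PA 1) → Bool
abbrev R1 := Ar (Mo (PA 1)) (H6 (Mo (PA 1)))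
abbrev E1 := Pool.Agent.Helper21.KRN.XM (PA 1) (N3 VR)

def v1 (f : Nat → Z) (T : Pr Nat) : Z := uc C0.W (f T.a) (f T.b)
def w1 (g : Nat → Bool) (T : Pr Nat) : Bool :=
  Bool.rec (motive := fun _ => Bool) false (g T.b) (g T.a)
def L1c : Nat := (nat_lit 576460752303423488)
theorem v1_eq (f : Nat → Z) (T : Pr Nat) : v1 f T = Uk1.u f T := by
  show uc C0.W (f T.a) (f T.b) =
    Z.add (Uk0.u f T.a) (Z.mul (Z.p C0.W) (Uk0.u f T.b))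
  rw [uc_eq]
  rfl
theorem w1_eq (g : Nat → Bool) (T : Pr Nat) : w1 g T = Uk1.b g T := by
  show Bool.rec (motive := fun _ => Bool) false (g T.b) (g T.a) =
    andB (Uk0.b g T.a) (Uk0.b g T.b)
  rfl
theorem c1_eq (c : Cx) : cdL L1c c = cD C1 c := cdL_eq C1 c
theorem p1_h (f : Nat → Cx) (T : Pr Nat) (hb : w1 (fun x => cdL L1c (f x)) T = true) :
    PR 1 (fun v => (gU Uk1_ok (fun x => zv (f x).re) T v, gU Uk1_ok (fun x => zv (f x).im) T v))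
      (mE Pool.Agent.Helper86.CK.E1 (v1 (fun x => (f x).re) T)) (mE Pool.Agent.Helper86.CK.E1 (v1 (fun x => (f x).im) T)) := by
  rw [w1_eq, show (fun x => cdL L1c (f x)) = (fun x => cD C1 (f x)) from
    funext fun x => c1_eq (f x)] at hb
  rw [mE_eq, mE_eq, v1_eq, v1_eq]
  exact up_h hC1 Uk1_ok f T hb
/-- the values at the vertices -/
def up1 (f : Nat → Cx) (T : Pr Nat) : PA 1 :=
  ⟨fun v => (gU Uk1_ok (fun x => zv (f x).re) T v, gU Uk1_ok (fun x => zv (f x).im) T v), truL 1,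
    mE Pool.Agent.Helper86.CK.E1 (v1 (fun x => (f x).re) T), mE Pool.Agent.Helper86.CK.E1 (v1 (fun x => (f x).im) T),
    w1 (fun x => cdL L1c (f x)) T, false, up_hs Uk1_ok f T, p1_h f T, fls_h⟩
theorem up1_eq : up1 = upK hC1 Uk1_ok := by
  funext f T
  refine Pool.Agent.Helper57.AKY.PA_ext rfl rfl ?_ ?_ ?_ rfl
  · show mE Pool.Agent.Helper86.CK.E1 (v1 (fun x => (f x).re) T) = Z.mul (Z.p Pool.Agent.Helper86.CK.E1) (Uk1.u (fun x => (f x).re) T)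
    rw [mE_eq, v1_eq]
  · show mE Pool.Agent.Helper86.CK.E1 (v1 (fun x => (f x).im) T) = Z.mul (Z.p Pool.Agent.Helper86.CK.E1) (Uk1.u (fun x => (f x).im) T)
    rw [mE_eq, v1_eq]
  · show w1 (fun x => cdL L1c (f x)) T = Uk1.b (fun x => cD C1 (f x)) T
    rw [w1_eq, show (fun x => cdL L1c (f x)) = (fun x => cD C1 (f x)) from
      funext fun x => c1_eq (f x)]

/-- the machine of the programs -/
def KA1 (A : Alg (PA 1)) : M1 :=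
  ⟨A, ⟨tsK C1⟩, ⟨up1⟩, ⟨zpK hM1⟩, bilK hS1 Mu1_ok, lkK hS1.1 Lk1_ok,
    psX S1c (shs (nat_lit 3)), (nat_lit 2), (nat_lit 134217728)⟩
/-- the machine of the families -/
def KB1 (A : Alg (PA 1)) : M1 :=
  ⟨A, ⟨tsK C1⟩, ⟨up1⟩, ⟨zpK hM1⟩, bilK hS1 Mu1_ok, lkK hS1.1 Lk1_ok,
    psK S1c (shs (nat_lit 3)), (nat_lit 2), (nat_lit 134217728)⟩
/-- the arithmetic of the families -/
def ar1 (A : Alg (PA 1)) : R1 :=
  ⟨addM A, subM A, mulM A, conjM A, reT A (LwK C1), imT A (LwK C1), invM A, invOK A, csT A, wdT, nbT,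
    fun x => x.r, fun x => (LwK C1).lv x.v [], dotT A, fun x => x, ltK C1 VK⟩
def fa1 (A : Alg (PA 1)) : T1 := famR (KB1 A) Pool.Agent.Helper86.CT.W1 (ar1 A) (fun x => x)
def fq1 (A : Alg (PA 1)) : T1 := famR (KB1 A) Pool.Agent.Helper86.CT.W1 (arN (ar1 A)) (fun x => x)
def cb1 (A : Alg (PA 1)) : BXT (PA 1) (Pr Nat) :=
  chBN (KB1 A) Pool.Agent.Helper86.CT.W1 (ar1 A) (fun x => x)
def cq1 (A : Alg (PA 1)) : BXT (PA 1) (Pr Nat) :=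
  chBN (KB1 A) Pool.Agent.Helper86.CT.W1 (arN (ar1 A)) (fun x => x)
def bs1 (A : Alg (PA 1)) (s : Bool) : BXT (PA 1) (Pr Nat) :=
  chBNs s (KB1 A) Pool.Agent.Helper86.CT.W1 (ar1 A) (fun x => x)
def qs1 (A : Alg (PA 1)) (s : Bool) : BXT (PA 1) (Pr Nat) :=
  chBNs s (KB1 A) Pool.Agent.Helper86.CT.W1 (arN (ar1 A)) (fun x => x)
/-- the run data -/
def qa1 (A : Alg (PA 1)) : Mq (PA 1) (N3 VR) := ⟨A, Q1k.V, Q1k.a⟩
def xa1 (A : Alg (PA 1)) (k0 k1 k2 : Mo (PA 1)) : E1 :=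
  ⟨qa1 A, Pool.Agent.Helper21.KRN.cN1, Pool.Agent.Helper21.KRN.rC1, k0, k1, k2⟩

theorem KA1_eq : KA1 (AK hC1) = Pool.Agent.Helper39.CKX.K1x := by
  unfold KA1
  rw [up1_eq]
  rfl
theorem KB1_eq : KB1 (AK hC1) = Pool.Agent.Helper86.CK.K1 := by
  unfold KB1
  rw [up1_eq]
  rfl
theorem ar1_eq : ar1 (AK hC1) = arK hC1 := rfl
theorem fa1_eq : fa1 (AK hC1) = Pool.Agent.Helper57.KNK.fam1k := by
  unfold fa1
  rw [KB1_eq, ar1_eq]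
  rfl
theorem fq1_eq : fq1 (AK hC1) = Pool.Agent.Helper57.KNC.fam1q := by
  unfold fq1
  rw [KB1_eq, ar1_eq]
  rfl
theorem cb1_eq : cb1 (AK hC1) = Pool.Agent.Helper57.KNK.chB1k := by
  unfold cb1
  rw [KB1_eq, ar1_eq]
  rfl
theorem cq1_eq : cq1 (AK hC1) = Pool.Agent.Helper57.KNC.chB1q := by
  unfold cq1
  rw [KB1_eq, ar1_eq]
  rfl
theorem bs1_eq : bs1 (AK hC1) = Pool.Agent.Helper57.KNK.chB1s := by
  unfold bs1
  rw [KB1_eq, ar1_eq]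
  rfl
theorem qs1_eq : qs1 (AK hC1) = Pool.Agent.Helper57.KNC.chB1qs := by
  unfold qs1
  rw [KB1_eq, ar1_eq]
  rfl
theorem xa1_eq (k0 k1 k2 : Mo (PA 1)) : xa1 (AK hC1) k0 k1 k2 = X1k k0 k1 k2 := rfl

/-! the same at `AY` -/
/-- operations of the models -/
def ad1 (f g : Mo (PA 1)) : Mo (PA 1) :=
  ⟨Pool.Agent.Helper57.AKY.Y1.addY f.v g.v, Nat.add f.r g.r, Pool.Agent.Helper57.AKY.Y1.nbY (Pool.Agent.Helper57.AKY.Y1.addY f.v g.v), Pool.Agent.Helper57.AKY.Y1.dfY (Pool.Agent.Helper57.AKY.Y1.addY f.v g.v)⟩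
def sb1 (f g : Mo (PA 1)) : Mo (PA 1) :=
  ⟨Pool.Agent.Helper57.AKY.Y1.subY f.v g.v, Nat.add f.r g.r, Pool.Agent.Helper57.AKY.Y1.nbY (Pool.Agent.Helper57.AKY.Y1.subY f.v g.v), Pool.Agent.Helper57.AKY.Y1.dfY (Pool.Agent.Helper57.AKY.Y1.subY f.v g.v)⟩
def mu1 (f g : Mo (PA 1)) : Mo (PA 1) :=
  ⟨Pool.Agent.Helper57.AKY.Y1.mulY f.v g.v, prad f g, Pool.Agent.Helper57.AKY.Y1.nbY (Pool.Agent.Helper57.AKY.Y1.mulY f.v g.v), Pool.Agent.Helper57.AKY.Y1.dfY (Pool.Agent.Helper57.AKY.Y1.mulY f.v g.v)⟩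
def cj1 (f : Mo (PA 1)) : Mo (PA 1) := ⟨cjK f.v, f.r, f.B, f.l⟩
def re1 (f : Mo (PA 1)) : Mo (PA 1) :=
  ⟨reK f.v, f.r, Pool.Agent.Helper57.AKY.Y1.nbY (reK f.v), Pool.Agent.Helper57.AKY.Y1.dfY (reK f.v)⟩
def im1 (f : Mo (PA 1)) : Mo (PA 1) :=
  ⟨imK f.v, f.r, Pool.Agent.Helper57.AKY.Y1.nbY (imK f.v), Pool.Agent.Helper57.AKY.Y1.dfY (imK f.v)⟩
def cs1 (c : Cx) : Mo (PA 1) :=
  ⟨csK hC1 c, (nat_lit 0), Pool.Agent.Helper57.AKY.Y1.nbY (csK hC1 c), Pool.Agent.Helper57.AKY.Y1.dfY (csK hC1 c)⟩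
def dt1 (x y z a b c : Mo (PA 1)) : Mo (PA 1) :=
  ad1 (mu1 x a) (ad1 (mu1 y b) (mu1 z c))
def KY1 : M1 := KA1 Pool.Agent.Helper57.AKY.Y1.AY
def KZ1 : M1 := KB1 Pool.Agent.Helper57.AKY.Y1.AY
def AR1 : R1 :=
  ⟨ad1, sb1, mu1, cj1, re1, im1, invM Pool.Agent.Helper57.AKY.Y1.AY, invOK Pool.Agent.Helper57.AKY.Y1.AY, cs1, wdT, nbT,
    fun x => x.r, fun x => (LwK C1).lv x.v [], dt1, fun x => x, ltY C1⟩
theorem AR1_eq : AR1 = ar1 Pool.Agent.Helper57.AKY.Y1.AY := by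
  unfold AR1
  rw [ltY_eq]
  rfl
def FY1 : T1 := famR KZ1 Pool.Agent.Helper86.CT.W1 AR1 (fun x => x)
def FQ1 : T1 := famR KZ1 Pool.Agent.Helper86.CT.W1 (arN AR1) (fun x => x)
def BY1 : BXT (PA 1) (Pr Nat) := chBN KZ1 Pool.Agent.Helper86.CT.W1 AR1 (fun x => x)
def BQ1 : BXT (PA 1) (Pr Nat) := chBN KZ1 Pool.Agent.Helper86.CT.W1 (arN AR1) (fun x => x)
def BS1 : Bool → BXT (PA 1) (Pr Nat) := fun s => chBNs s KZ1 Pool.Agent.Helper86.CT.W1 AR1 (fun x => x)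
def QS1 : Bool → BXT (PA 1) (Pr Nat) := fun s => chBNs s KZ1 Pool.Agent.Helper86.CT.W1 (arN AR1) (fun x => x)
def CY1 (k0 k1 k2 : Mo (PA 1)) : Cls (PA 1) := mkCls Pool.Agent.Helper57.AKY.Y1.AY k0 k1 k2
def XY1 (k0 k1 k2 : Mo (PA 1)) : E1 := xa1 Pool.Agent.Helper57.AKY.Y1.AY k0 k1 k2

theorem KY1_eq : KY1 = Pool.Agent.Helper39.CKX.K1x :=
  (congrArg KA1 Pool.Agent.Helper57.AKY.Y1.AY_eq).trans KA1_eq
theorem FY1_eq : FY1 = Pool.Agent.Helper57.KNK.fam1k :=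
  (show FY1 = fa1 Pool.Agent.Helper57.AKY.Y1.AY by unfold FY1; rw [AR1_eq]; rfl).trans
    ((congrArg fa1 Pool.Agent.Helper57.AKY.Y1.AY_eq).trans fa1_eq)
theorem FQ1_eq : FQ1 = Pool.Agent.Helper57.KNC.fam1q :=
  (show FQ1 = fq1 Pool.Agent.Helper57.AKY.Y1.AY by unfold FQ1; rw [AR1_eq]; rfl).trans
    ((congrArg fq1 Pool.Agent.Helper57.AKY.Y1.AY_eq).trans fq1_eq)
theorem BY1_eq : BY1 = Pool.Agent.Helper57.KNK.chB1k :=
  (show BY1 = cb1 Pool.Agent.Helper57.AKY.Y1.AY by unfold BY1; rw [AR1_eq]; rfl).trans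
    ((congrArg cb1 Pool.Agent.Helper57.AKY.Y1.AY_eq).trans cb1_eq)
theorem BQ1_eq : BQ1 = Pool.Agent.Helper57.KNC.chB1q :=
  (show BQ1 = cq1 Pool.Agent.Helper57.AKY.Y1.AY by unfold BQ1; rw [AR1_eq]; rfl).trans
    ((congrArg cq1 Pool.Agent.Helper57.AKY.Y1.AY_eq).trans cq1_eq)
theorem BS1_eq : BS1 = Pool.Agent.Helper57.KNK.chB1s :=
  (show BS1 = bs1 Pool.Agent.Helper57.AKY.Y1.AY by unfold BS1; rw [AR1_eq]; rfl).trans
    ((congrArg bs1 Pool.Agent.Helper57.AKY.Y1.AY_eq).trans bs1_eq)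
theorem QS1_eq : QS1 = Pool.Agent.Helper57.KNC.chB1qs :=
  (show QS1 = qs1 Pool.Agent.Helper57.AKY.Y1.AY by unfold QS1; rw [AR1_eq]; rfl).trans
    ((congrArg qs1 Pool.Agent.Helper57.AKY.Y1.AY_eq).trans qs1_eq)
theorem CY1_eq (k0 k1 k2 : Mo (PA 1)) : CY1 k0 k1 k2 = mkCls (AK hC1) k0 k1 k2 :=
  congrArg (fun A => mkCls A k0 k1 k2) Pool.Agent.Helper57.AKY.Y1.AY_eq
theorem XY1_eq (k0 k1 k2 : Mo (PA 1)) : XY1 k0 k1 k2 = X1k k0 k1 k2 :=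
  (congrArg (fun A => xa1 A k0 k1 k2) Pool.Agent.Helper57.AKY.Y1.AY_eq).trans (xa1_eq k0 k1 k2)

theorem KZ1_eq : KZ1 = Pool.Agent.Helper86.CK.K1 :=
  (congrArg KB1 Pool.Agent.Helper57.AKY.Y1.AY_eq).trans KB1_eq

/-- AN ACCEPTED TEST WITH THE FAST ALGEBRA, carried over to the old one -/
theorem d1 (k0 k1 k2 : Mo (PA 1))
    (P : M1 → T1 → T1 → BXT (PA 1) (Pr Nat) → BXT (PA 1) (Pr Nat) → (Bool → BXT (PA 1) (Pr Nat)) →
      (Bool → BXT (PA 1) (Pr Nat)) → M1 → Cls (PA 1) → E1 → Bool)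
    (h : P KY1 FY1 FQ1 BY1 BQ1 BS1 QS1 KZ1 (CY1 k0 k1 k2) (XY1 k0 k1 k2) = true) :
    P Pool.Agent.Helper39.CKX.K1x Pool.Agent.Helper57.KNK.fam1k Pool.Agent.Helper57.KNC.fam1q
      Pool.Agent.Helper57.KNK.chB1k Pool.Agent.Helper57.KNC.chB1q Pool.Agent.Helper57.KNK.chB1s
      Pool.Agent.Helper57.KNC.chB1qs Pool.Agent.Helper86.CK.K1 (mkCls (AK hC1) k0 k1 k2)
      (X1k k0 k1 k2) = true := by
  rw [KY1_eq, FY1_eq, FQ1_eq, BY1_eq, BQ1_eq, BS1_eq, QS1_eq, KZ1_eq, CY1_eq,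
    XY1_eq] at h
  exact h

/-! ### depth 2 -/

abbrev M2 := Mc (PA 2) (Pr (Pr Nat)) (PZ 2) (N3 (N3 VR)) (GK 2)
abbrev T2 := (Pr (Pr Nat)) → FDT (Pr (Pr Nat)) → Mo (PA 2) → Mo (PA 2) → Mo (PA 2) → Mo (PA 2) → Mo (PA 2) → Bool
abbrev R2 := Ar (Mo (PA 2)) (H6 (Mo (PA 2)))
abbrev E2 := Pool.Agent.Helper21.KRN.XM (PA 2) (N3 (N3 VR))

def v2 (f : Nat → Z) (T : Pr (Pr Nat)) : Z := uc C1.W (v1 f T.a) (v1 f T.b)
def w2 (g : Nat → Bool) (T : Pr (Pr Nat)) : Bool :=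
  Bool.rec (motive := fun _ => Bool) false (w1 g T.b) (w1 g T.a)
def L2c : Nat := (nat_lit 288230376151711744)
theorem v2_eq (f : Nat → Z) (T : Pr (Pr Nat)) : v2 f T = Uk2.u f T := by
  show uc C1.W (v1 f T.a) (v1 f T.b) =
    Z.add (Uk1.u f T.a) (Z.mul (Z.p C1.W) (Uk1.u f T.b))
  rw [uc_eq, v1_eq, v1_eq]
theorem w2_eq (g : Nat → Bool) (T : Pr (Pr Nat)) : w2 g T = Uk2.b g T := by
  show Bool.rec (motive := fun _ => Bool) false (w1 g T.b) (w1 g T.a) =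
    andB (Uk1.b g T.a) (Uk1.b g T.b)
  rw [w1_eq, w1_eq]
  rfl
theorem c2_eq (c : Cx) : cdL L2c c = cD C2 c := cdL_eq C2 c
theorem p2_h (f : Nat → Cx) (T : Pr (Pr Nat)) (hb : w2 (fun x => cdL L2c (f x)) T = true) :
    PR 2 (fun v => (gU Uk2_ok (fun x => zv (f x).re) T v, gU Uk2_ok (fun x => zv (f x).im) T v))
      (mE Pool.Agent.Helper86.CK.E2 (v2 (fun x => (f x).re) T)) (mE Pool.Agent.Helper86.CK.E2 (v2 (fun x => (f x).im) T)) := by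
  rw [w2_eq, show (fun x => cdL L2c (f x)) = (fun x => cD C2 (f x)) from
    funext fun x => c2_eq (f x)] at hb
  rw [mE_eq, mE_eq, v2_eq, v2_eq]
  exact up_h hC2 Uk2_ok f T hb
/-- the values at the vertices -/
def up2 (f : Nat → Cx) (T : Pr (Pr Nat)) : PA 2 :=
  ⟨fun v => (gU Uk2_ok (fun x => zv (f x).re) T v, gU Uk2_ok (fun x => zv (f x).im) T v), truL 2,
    mE Pool.Agent.Helper86.CK.E2 (v2 (fun x => (f x).re) T), mE Pool.Agent.Helper86.CK.E2 (v2 (fun x => (f x).im) T),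
    w2 (fun x => cdL L2c (f x)) T, false, up_hs Uk2_ok f T, p2_h f T, fls_h⟩
theorem up2_eq : up2 = upK hC2 Uk2_ok := by
  funext f T
  refine Pool.Agent.Helper57.AKY.PA_ext rfl rfl ?_ ?_ ?_ rfl
  · show mE Pool.Agent.Helper86.CK.E2 (v2 (fun x => (f x).re) T) = Z.mul (Z.p Pool.Agent.Helper86.CK.E2) (Uk2.u (fun x => (f x).re) T)
    rw [mE_eq, v2_eq]
  · show mE Pool.Agent.Helper86.CK.E2 (v2 (fun x => (f x).im) T) = Z.mul (Z.p Pool.Agent.Helper86.CK.E2) (Uk2.u (fun x => (f x).im) T)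
    rw [mE_eq, v2_eq]
  · show w2 (fun x => cdL L2c (f x)) T = Uk2.b (fun x => cD C2 (f x)) T
    rw [w2_eq, show (fun x => cdL L2c (f x)) = (fun x => cD C2 (f x)) from
      funext fun x => c2_eq (f x)]

/-- the machine of the programs -/
def KA2 (A : Alg (PA 2)) : M2 :=
  ⟨A, ⟨tsK C2⟩, ⟨up2⟩, ⟨zpK hM2⟩, bilK hS2 Mu2_ok, lkK hS2.1 Lk2_ok,
    psX S2c (shs (nat_lit 9)), (nat_lit 4), (nat_lit 67108864)⟩
/-- the machine of the families -/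
def KB2 (A : Alg (PA 2)) : M2 :=
  ⟨A, ⟨tsK C2⟩, ⟨up2⟩, ⟨zpK hM2⟩, bilK hS2 Mu2_ok, lkK hS2.1 Lk2_ok,
    psK S2c (shs (nat_lit 9)), (nat_lit 4), (nat_lit 67108864)⟩
/-- the arithmetic of the families -/
def ar2 (A : Alg (PA 2)) : R2 :=
  ⟨addM A, subM A, mulM A, conjM A, reT A (LwK C2), imT A (LwK C2), invM A, invOK A, csT A, wdT, nbT,
    fun x => x.r, fun x => (LwK C2).lv x.v [], dotT A, fun x => x, ltK C2 VK⟩
def fa2 (A : Alg (PA 2)) : T2 := famR (KB2 A) Pool.Agent.Helper86.CT.W2 (ar2 A) (fun x => x)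
def fq2 (A : Alg (PA 2)) : T2 := famR (KB2 A) Pool.Agent.Helper86.CT.W2 (arN (ar2 A)) (fun x => x)
def cb2 (A : Alg (PA 2)) : BXT (PA 2) (Pr (Pr Nat)) :=
  chBN (KB2 A) Pool.Agent.Helper86.CT.W2 (ar2 A) (fun x => x)
def cq2 (A : Alg (PA 2)) : BXT (PA 2) (Pr (Pr Nat)) :=
  chBN (KB2 A) Pool.Agent.Helper86.CT.W2 (arN (ar2 A)) (fun x => x)
def bs2 (A : Alg (PA 2)) (s : Bool) : BXT (PA 2) (Pr (Pr Nat)) :=
  chBNs s (KB2 A) Pool.Agent.Helper86.CT.W2 (ar2 A) (fun x => x)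
def qs2 (A : Alg (PA 2)) (s : Bool) : BXT (PA 2) (Pr (Pr Nat)) :=
  chBNs s (KB2 A) Pool.Agent.Helper86.CT.W2 (arN (ar2 A)) (fun x => x)
/-- the run data -/
def qa2 (A : Alg (PA 2)) : Mq (PA 2) (N3 (N3 VR)) := ⟨A, Q2k.V, Q2k.a⟩
def xa2 (A : Alg (PA 2)) (k0 k1 k2 : Mo (PA 2)) : E2 :=
  ⟨qa2 A, Pool.Agent.Helper21.KRN.cN2, Pool.Agent.Helper21.KRN.rC2, k0, k1, k2⟩

theorem KA2_eq : KA2 (AK hC2) = Pool.Agent.Helper39.CKX.K2x := by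
  unfold KA2
  rw [up2_eq]
  rfl
theorem KB2_eq : KB2 (AK hC2) = Pool.Agent.Helper86.CK.K2 := by
  unfold KB2
  rw [up2_eq]
  rfl
theorem ar2_eq : ar2 (AK hC2) = arK hC2 := rfl
theorem fa2_eq : fa2 (AK hC2) = Pool.Agent.Helper57.KNK.fam2k := by
  unfold fa2
  rw [KB2_eq, ar2_eq]
  rfl
theorem fq2_eq : fq2 (AK hC2) = Pool.Agent.Helper57.KNC.fam2q := by
  unfold fq2
  rw [KB2_eq, ar2_eq]
  rfl
theorem cb2_eq : cb2 (AK hC2) = Pool.Agent.Helper57.KNK.chB2k := by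
  unfold cb2
  rw [KB2_eq, ar2_eq]
  rfl
theorem cq2_eq : cq2 (AK hC2) = Pool.Agent.Helper57.KNC.chB2q := by
  unfold cq2
  rw [KB2_eq, ar2_eq]
  rfl
theorem bs2_eq : bs2 (AK hC2) = Pool.Agent.Helper57.KNK.chB2s := by
  unfold bs2
  rw [KB2_eq, ar2_eq]
  rfl
theorem qs2_eq : qs2 (AK hC2) = Pool.Agent.Helper57.KNC.chB2qs := by
  unfold qs2
  rw [KB2_eq, ar2_eq]
  rfl
theorem xa2_eq (k0 k1 k2 : Mo (PA 2)) : xa2 (AK hC2) k0 k1 k2 = X2k k0 k1 k2 := rfl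

/-! the same at `AY` -/
/-- operations of the models -/
def ad2 (f g : Mo (PA 2)) : Mo (PA 2) :=
  ⟨Pool.Agent.Helper57.AKY.Y2.addY f.v g.v, Nat.add f.r g.r, Pool.Agent.Helper57.AKY.Y2.nbY (Pool.Agent.Helper57.AKY.Y2.addY f.v g.v), Pool.Agent.Helper57.AKY.Y2.dfY (Pool.Agent.Helper57.AKY.Y2.addY f.v g.v)⟩
def sb2 (f g : Mo (PA 2)) : Mo (PA 2) :=
  ⟨Pool.Agent.Helper57.AKY.Y2.subY f.v g.v, Nat.add f.r g.r, Pool.Agent.Helper57.AKY.Y2.nbY (Pool.Agent.Helper57.AKY.Y2.subY f.v g.v), Pool.Agent.Helper57.AKY.Y2.dfY (Pool.Agent.Helper57.AKY.Y2.subY f.v g.v)⟩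
def mu2 (f g : Mo (PA 2)) : Mo (PA 2) :=
  ⟨Pool.Agent.Helper57.AKY.Y2.mulY f.v g.v, prad f g, Pool.Agent.Helper57.AKY.Y2.nbY (Pool.Agent.Helper57.AKY.Y2.mulY f.v g.v), Pool.Agent.Helper57.AKY.Y2.dfY (Pool.Agent.Helper57.AKY.Y2.mulY f.v g.v)⟩
def cj2 (f : Mo (PA 2)) : Mo (PA 2) := ⟨cjK f.v, f.r, f.B, f.l⟩
def re2 (f : Mo (PA 2)) : Mo (PA 2) :=
  ⟨reK f.v, f.r, Pool.Agent.Helper57.AKY.Y2.nbY (reK f.v), Pool.Agent.Helper57.AKY.Y2.dfY (reK f.v)⟩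
def im2 (f : Mo (PA 2)) : Mo (PA 2) :=
  ⟨imK f.v, f.r, Pool.Agent.Helper57.AKY.Y2.nbY (imK f.v), Pool.Agent.Helper57.AKY.Y2.dfY (imK f.v)⟩
def cs2 (c : Cx) : Mo (PA 2) :=
  ⟨csK hC2 c, (nat_lit 0), Pool.Agent.Helper57.AKY.Y2.nbY (csK hC2 c), Pool.Agent.Helper57.AKY.Y2.dfY (csK hC2 c)⟩
def dt2 (x y z a b c : Mo (PA 2)) : Mo (PA 2) :=
  ad2 (mu2 x a) (ad2 (mu2 y b) (mu2 z c))
def KY2 : M2 := KA2 Pool.Agent.Helper57.AKY.Y2.AY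
def KZ2 : M2 := KB2 Pool.Agent.Helper57.AKY.Y2.AY
def AR2 : R2 :=
  ⟨ad2, sb2, mu2, cj2, re2, im2, invM Pool.Agent.Helper57.AKY.Y2.AY, invOK Pool.Agent.Helper57.AKY.Y2.AY, cs2, wdT, nbT,
    fun x => x.r, fun x => (LwK C2).lv x.v [], dt2, fun x => x, ltY C2⟩
theorem AR2_eq : AR2 = ar2 Pool.Agent.Helper57.AKY.Y2.AY := by
  unfold AR2
  rw [ltY_eq]
  rfl
def FY2 : T2 := famR KZ2 Pool.Agent.Helper86.CT.W2 AR2 (fun x => x)
def FQ2 : T2 := famR KZ2 Pool.Agent.Helper86.CT.W2 (arN AR2) (fun x => x)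
def BY2 : BXT (PA 2) (Pr (Pr Nat)) := chBN KZ2 Pool.Agent.Helper86.CT.W2 AR2 (fun x => x)
def BQ2 : BXT (PA 2) (Pr (Pr Nat)) := chBN KZ2 Pool.Agent.Helper86.CT.W2 (arN AR2) (fun x => x)
def BS2 : Bool → BXT (PA 2) (Pr (Pr Nat)) := fun s => chBNs s KZ2 Pool.Agent.Helper86.CT.W2 AR2 (fun x => x)
def QS2 : Bool → BXT (PA 2) (Pr (Pr Nat)) := fun s => chBNs s KZ2 Pool.Agent.Helper86.CT.W2 (arN AR2) (fun x => x)
def CY2 (k0 k1 k2 : Mo (PA 2)) : Cls (PA 2) := mkCls Pool.Agent.Helper57.AKY.Y2.AY k0 k1 k2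
def XY2 (k0 k1 k2 : Mo (PA 2)) : E2 := xa2 Pool.Agent.Helper57.AKY.Y2.AY k0 k1 k2

theorem KY2_eq : KY2 = Pool.Agent.Helper39.CKX.K2x :=
  (congrArg KA2 Pool.Agent.Helper57.AKY.Y2.AY_eq).trans KA2_eq
theorem FY2_eq : FY2 = Pool.Agent.Helper57.KNK.fam2k :=
  (show FY2 = fa2 Pool.Agent.Helper57.AKY.Y2.AY by unfold FY2; rw [AR2_eq]; rfl).trans
    ((congrArg fa2 Pool.Agent.Helper57.AKY.Y2.AY_eq).trans fa2_eq)
theorem FQ2_eq : FQ2 = Pool.Agent.Helper57.KNC.fam2q :=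
  (show FQ2 = fq2 Pool.Agent.Helper57.AKY.Y2.AY by unfold FQ2; rw [AR2_eq]; rfl).trans
    ((congrArg fq2 Pool.Agent.Helper57.AKY.Y2.AY_eq).trans fq2_eq)
theorem BY2_eq : BY2 = Pool.Agent.Helper57.KNK.chB2k :=
  (show BY2 = cb2 Pool.Agent.Helper57.AKY.Y2.AY by unfold BY2; rw [AR2_eq]; rfl).trans
    ((congrArg cb2 Pool.Agent.Helper57.AKY.Y2.AY_eq).trans cb2_eq)
theorem BQ2_eq : BQ2 = Pool.Agent.Helper57.KNC.chB2q :=
  (show BQ2 = cq2 Pool.Agent.Helper57.AKY.Y2.AY by unfold BQ2; rw [AR2_eq]; rfl).trans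
    ((congrArg cq2 Pool.Agent.Helper57.AKY.Y2.AY_eq).trans cq2_eq)
theorem BS2_eq : BS2 = Pool.Agent.Helper57.KNK.chB2s :=
  (show BS2 = bs2 Pool.Agent.Helper57.AKY.Y2.AY by unfold BS2; rw [AR2_eq]; rfl).trans
    ((congrArg bs2 Pool.Agent.Helper57.AKY.Y2.AY_eq).trans bs2_eq)
theorem QS2_eq : QS2 = Pool.Agent.Helper57.KNC.chB2qs :=
  (show QS2 = qs2 Pool.Agent.Helper57.AKY.Y2.AY by unfold QS2; rw [AR2_eq]; rfl).trans
    ((congrArg qs2 Pool.Agent.Helper57.AKY.Y2.AY_eq).trans qs2_eq)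
theorem CY2_eq (k0 k1 k2 : Mo (PA 2)) : CY2 k0 k1 k2 = mkCls (AK hC2) k0 k1 k2 :=
  congrArg (fun A => mkCls A k0 k1 k2) Pool.Agent.Helper57.AKY.Y2.AY_eq
theorem XY2_eq (k0 k1 k2 : Mo (PA 2)) : XY2 k0 k1 k2 = X2k k0 k1 k2 :=
  (congrArg (fun A => xa2 A k0 k1 k2) Pool.Agent.Helper57.AKY.Y2.AY_eq).trans (xa2_eq k0 k1 k2)

theorem KZ2_eq : KZ2 = Pool.Agent.Helper86.CK.K2 :=
  (congrArg KB2 Pool.Agent.Helper57.AKY.Y2.AY_eq).trans KB2_eq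

/-- AN ACCEPTED TEST WITH THE FAST ALGEBRA, carried over to the old one -/
theorem d2 (k0 k1 k2 : Mo (PA 2))
    (P : M2 → T2 → T2 → BXT (PA 2) (Pr (Pr Nat)) → BXT (PA 2) (Pr (Pr Nat)) → (Bool → BXT (PA 2) (Pr (Pr Nat))) →
      (Bool → BXT (PA 2) (Pr (Pr Nat))) → M2 → Cls (PA 2) → E2 → Bool)
    (h : P KY2 FY2 FQ2 BY2 BQ2 BS2 QS2 KZ2 (CY2 k0 k1 k2) (XY2 k0 k1 k2) = true) :
    P Pool.Agent.Helper39.CKX.K2x Pool.Agent.Helper57.KNK.fam2k Pool.Agent.Helper57.KNC.fam2q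
      Pool.Agent.Helper57.KNK.chB2k Pool.Agent.Helper57.KNC.chB2q Pool.Agent.Helper57.KNK.chB2s
      Pool.Agent.Helper57.KNC.chB2qs Pool.Agent.Helper86.CK.K2 (mkCls (AK hC2) k0 k1 k2)
      (X2k k0 k1 k2) = true := by
  rw [KY2_eq, FY2_eq, FQ2_eq, BY2_eq, BQ2_eq, BS2_eq, QS2_eq, KZ2_eq, CY2_eq,
    XY2_eq] at h
  exact h

/-! ### depth 3 -/

abbrev M3 := Mc (PA 3) (Pr (Pr (Pr Nat))) (PZ 3) (N3 (N3 (N3 VR))) (GK 3)
abbrev T3 := (Pr (Pr (Pr Nat))) → FDT (Pr (Pr (Pr Nat))) → Mo (PA 3) → Mo (PA 3) → Mo (PA 3) → Mo (PA 3) → Mo (PA 3) → Bool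
abbrev R3 := Ar (Mo (PA 3)) (H6 (Mo (PA 3)))
abbrev E3 := Pool.Agent.Helper21.KRN.XM (PA 3) (N3 (N3 (N3 VR)))

def v3 (f : Nat → Z) (T : Pr (Pr (Pr Nat))) : Z := uc C2.W (v2 f T.a) (v2 f T.b)
def w3 (g : Nat → Bool) (T : Pr (Pr (Pr Nat))) : Bool :=
  Bool.rec (motive := fun _ => Bool) false (w2 g T.b) (w2 g T.a)
def L3c : Nat := (nat_lit 144115188075855872)
theorem v3_eq (f : Nat → Z) (T : Pr (Pr (Pr Nat))) : v3 f T = Uk3.u f T := by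
  show uc C2.W (v2 f T.a) (v2 f T.b) =
    Z.add (Uk2.u f T.a) (Z.mul (Z.p C2.W) (Uk2.u f T.b))
  rw [uc_eq, v2_eq, v2_eq]
theorem w3_eq (g : Nat → Bool) (T : Pr (Pr (Pr Nat))) : w3 g T = Uk3.b g T := by
  show Bool.rec (motive := fun _ => Bool) false (w2 g T.b) (w2 g T.a) =
    andB (Uk2.b g T.a) (Uk2.b g T.b)
  rw [w2_eq, w2_eq]
  rfl
theorem c3_eq (c : Cx) : cdL L3c c = cD C3 c := cdL_eq C3 c
theorem p3_h (f : Nat → Cx) (T : Pr (Pr (Pr Nat))) (hb : w3 (fun x => cdL L3c (f x)) T = true) :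
    PR 3 (fun v => (gU Uk3_ok (fun x => zv (f x).re) T v, gU Uk3_ok (fun x => zv (f x).im) T v))
      (mE Pool.Agent.Helper86.CK.E3 (v3 (fun x => (f x).re) T)) (mE Pool.Agent.Helper86.CK.E3 (v3 (fun x => (f x).im) T)) := by
  rw [w3_eq, show (fun x => cdL L3c (f x)) = (fun x => cD C3 (f x)) from
    funext fun x => c3_eq (f x)] at hb
  rw [mE_eq, mE_eq, v3_eq, v3_eq]
  exact up_h hC3 Uk3_ok f T hb
/-- the values at the vertices -/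
def up3 (f : Nat → Cx) (T : Pr (Pr (Pr Nat))) : PA 3 :=
  ⟨fun v => (gU Uk3_ok (fun x => zv (f x).re) T v, gU Uk3_ok (fun x => zv (f x).im) T v), truL 3,
    mE Pool.Agent.Helper86.CK.E3 (v3 (fun x => (f x).re) T), mE Pool.Agent.Helper86.CK.E3 (v3 (fun x => (f x).im) T),
    w3 (fun x => cdL L3c (f x)) T, false, up_hs Uk3_ok f T, p3_h f T, fls_h⟩
theorem up3_eq : up3 = upK hC3 Uk3_ok := by
  funext f T
  refine Pool.Agent.Helper57.AKY.PA_ext rfl rfl ?_ ?_ ?_ rfl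
  · show mE Pool.Agent.Helper86.CK.E3 (v3 (fun x => (f x).re) T) = Z.mul (Z.p Pool.Agent.Helper86.CK.E3) (Uk3.u (fun x => (f x).re) T)
    rw [mE_eq, v3_eq]
  · show mE Pool.Agent.Helper86.CK.E3 (v3 (fun x => (f x).im) T) = Z.mul (Z.p Pool.Agent.Helper86.CK.E3) (Uk3.u (fun x => (f x).im) T)
    rw [mE_eq, v3_eq]
  · show w3 (fun x => cdL L3c (f x)) T = Uk3.b (fun x => cD C3 (f x)) T
    rw [w3_eq, show (fun x => cdL L3c (f x)) = (fun x => cD C3 (f x)) from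
      funext fun x => c3_eq (f x)]

/-- the machine of the programs -/
def KA3 (A : Alg (PA 3)) : M3 :=
  ⟨A, ⟨tsK C3⟩, ⟨up3⟩, ⟨zpK hM3⟩, bilK hS3 Mu3_ok, lkK hS3.1 Lk3_ok,
    psX S3c (shs (nat_lit 27)), (nat_lit 8), (nat_lit 33554432)⟩
/-- the machine of the families -/
def KB3 (A : Alg (PA 3)) : M3 :=
  ⟨A, ⟨tsK C3⟩, ⟨up3⟩, ⟨zpK hM3⟩, bilK hS3 Mu3_ok, lkK hS3.1 Lk3_ok,
    psK S3c (shs (nat_lit 27)), (nat_lit 8), (nat_lit 33554432)⟩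
/-- the arithmetic of the families -/
def ar3 (A : Alg (PA 3)) : R3 :=
  ⟨addM A, subM A, mulM A, conjM A, reT A (LwK C3), imT A (LwK C3), invM A, invOK A, csT A, wdT, nbT,
    fun x => x.r, fun x => (LwK C3).lv x.v [], dotT A, fun x => x, ltK C3 VK⟩
def fa3 (A : Alg (PA 3)) : T3 := famR (KB3 A) Pool.Agent.Helper86.CT.W3 (ar3 A) (fun x => x)
def fq3 (A : Alg (PA 3)) : T3 := famR (KB3 A) Pool.Agent.Helper86.CT.W3 (arN (ar3 A)) (fun x => x)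
def cb3 (A : Alg (PA 3)) : BXT (PA 3) (Pr (Pr (Pr Nat))) :=
  chBN (KB3 A) Pool.Agent.Helper86.CT.W3 (ar3 A) (fun x => x)
def cq3 (A : Alg (PA 3)) : BXT (PA 3) (Pr (Pr (Pr Nat))) :=
  chBN (KB3 A) Pool.Agent.Helper86.CT.W3 (arN (ar3 A)) (fun x => x)
def bs3 (A : Alg (PA 3)) (s : Bool) : BXT (PA 3) (Pr (Pr (Pr Nat))) :=
  chBNs s (KB3 A) Pool.Agent.Helper86.CT.W3 (ar3 A) (fun x => x)
def qs3 (A : Alg (PA 3)) (s : Bool) : BXT (PA 3) (Pr (Pr (Pr Nat))) :=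
  chBNs s (KB3 A) Pool.Agent.Helper86.CT.W3 (arN (ar3 A)) (fun x => x)
/-- the run data -/
def qa3 (A : Alg (PA 3)) : Mq (PA 3) (N3 (N3 (N3 VR))) := ⟨A, Q3k.V, Q3k.a⟩
def xa3 (A : Alg (PA 3)) (k0 k1 k2 : Mo (PA 3)) : E3 :=
  ⟨qa3 A, Pool.Agent.Helper21.KRN.cN3, Pool.Agent.Helper21.KRN.rC3, k0, k1, k2⟩

theorem KA3_eq : KA3 (AK hC3) = Pool.Agent.Helper39.CKX.K3x := by
  unfold KA3
  rw [up3_eq]
  rfl
theorem KB3_eq : KB3 (AK hC3) = Pool.Agent.Helper86.CK.K3 := by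
  unfold KB3
  rw [up3_eq]
  rfl
theorem ar3_eq : ar3 (AK hC3) = arK hC3 := rfl
theorem fa3_eq : fa3 (AK hC3) = Pool.Agent.Helper57.KNK.fam3k := by
  unfold fa3
  rw [KB3_eq, ar3_eq]
  rfl
theorem fq3_eq : fq3 (AK hC3) = Pool.Agent.Helper57.KNC.fam3q := by
  unfold fq3
  rw [KB3_eq, ar3_eq]
  rfl
theorem cb3_eq : cb3 (AK hC3) = Pool.Agent.Helper57.KNK.chB3k := by
  unfold cb3
  rw [KB3_eq, ar3_eq]
  rfl
theorem cq3_eq : cq3 (AK hC3) = Pool.Agent.Helper57.KNC.chB3q := by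
  unfold cq3
  rw [KB3_eq, ar3_eq]
  rfl
theorem bs3_eq : bs3 (AK hC3) = Pool.Agent.Helper57.KNK.chB3s := by
  unfold bs3
  rw [KB3_eq, ar3_eq]
  rfl
theorem qs3_eq : qs3 (AK hC3) = Pool.Agent.Helper57.KNC.chB3qs := by
  unfold qs3
  rw [KB3_eq, ar3_eq]
  rfl
theorem xa3_eq (k0 k1 k2 : Mo (PA 3)) : xa3 (AK hC3) k0 k1 k2 = X3k k0 k1 k2 := rfl

/-! the same at `AY` -/
/-- operations of the models -/
def ad3 (f g : Mo (PA 3)) : Mo (PA 3) :=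
  ⟨Pool.Agent.Helper57.AKY.Y3.addY f.v g.v, Nat.add f.r g.r, Pool.Agent.Helper57.AKY.Y3.nbY (Pool.Agent.Helper57.AKY.Y3.addY f.v g.v), Pool.Agent.Helper57.AKY.Y3.dfY (Pool.Agent.Helper57.AKY.Y3.addY f.v g.v)⟩
def sb3 (f g : Mo (PA 3)) : Mo (PA 3) :=
  ⟨Pool.Agent.Helper57.AKY.Y3.subY f.v g.v, Nat.add f.r g.r, Pool.Agent.Helper57.AKY.Y3.nbY (Pool.Agent.Helper57.AKY.Y3.subY f.v g.v), Pool.Agent.Helper57.AKY.Y3.dfY (Pool.Agent.Helper57.AKY.Y3.subY f.v g.v)⟩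
def mu3 (f g : Mo (PA 3)) : Mo (PA 3) :=
  ⟨Pool.Agent.Helper57.AKY.Y3.mulY f.v g.v, prad f g, Pool.Agent.Helper57.AKY.Y3.nbY (Pool.Agent.Helper57.AKY.Y3.mulY f.v g.v), Pool.Agent.Helper57.AKY.Y3.dfY (Pool.Agent.Helper57.AKY.Y3.mulY f.v g.v)⟩
def cj3 (f : Mo (PA 3)) : Mo (PA 3) := ⟨cjK f.v, f.r, f.B, f.l⟩
def re3 (f : Mo (PA 3)) : Mo (PA 3) :=
  ⟨reK f.v, f.r, Pool.Agent.Helper57.AKY.Y3.nbY (reK f.v), Pool.Agent.Helper57.AKY.Y3.dfY (reK f.v)⟩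
def im3 (f : Mo (PA 3)) : Mo (PA 3) :=
  ⟨imK f.v, f.r, Pool.Agent.Helper57.AKY.Y3.nbY (imK f.v), Pool.Agent.Helper57.AKY.Y3.dfY (imK f.v)⟩
def cs3 (c : Cx) : Mo (PA 3) :=
  ⟨csK hC3 c, (nat_lit 0), Pool.Agent.Helper57.AKY.Y3.nbY (csK hC3 c), Pool.Agent.Helper57.AKY.Y3.dfY (csK hC3 c)⟩
def dt3 (x y z a b c : Mo (PA 3)) : Mo (PA 3) :=
  ad3 (mu3 x a) (ad3 (mu3 y b) (mu3 z c))
def KY3 : M3 := KA3 Pool.Agent.Helper57.AKY.Y3.AY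
def KZ3 : M3 := KB3 Pool.Agent.Helper57.AKY.Y3.AY
def AR3 : R3 :=
  ⟨ad3, sb3, mu3, cj3, re3, im3, invM Pool.Agent.Helper57.AKY.Y3.AY, invOK Pool.Agent.Helper57.AKY.Y3.AY, cs3, wdT, nbT,
    fun x => x.r, fun x => (LwK C3).lv x.v [], dt3, fun x => x, ltY C3⟩
theorem AR3_eq : AR3 = ar3 Pool.Agent.Helper57.AKY.Y3.AY := by
  unfold AR3
  rw [ltY_eq]
  rfl
def FY3 : T3 := famR KZ3 Pool.Agent.Helper86.CT.W3 AR3 (fun x => x)
def FQ3 : T3 := famR KZ3 Pool.Agent.Helper86.CT.W3 (arN AR3) (fun x => x)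
def BY3 : BXT (PA 3) (Pr (Pr (Pr Nat))) := chBN KZ3 Pool.Agent.Helper86.CT.W3 AR3 (fun x => x)
def BQ3 : BXT (PA 3) (Pr (Pr (Pr Nat))) := chBN KZ3 Pool.Agent.Helper86.CT.W3 (arN AR3) (fun x => x)
def BS3 : Bool → BXT (PA 3) (Pr (Pr (Pr Nat))) := fun s => chBNs s KZ3 Pool.Agent.Helper86.CT.W3 AR3 (fun x => x)
def QS3 : Bool → BXT (PA 3) (Pr (Pr (Pr Nat))) := fun s => chBNs s KZ3 Pool.Agent.Helper86.CT.W3 (arN AR3) (fun x => x)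
def CY3 (k0 k1 k2 : Mo (PA 3)) : Cls (PA 3) := mkCls Pool.Agent.Helper57.AKY.Y3.AY k0 k1 k2
def XY3 (k0 k1 k2 : Mo (PA 3)) : E3 := xa3 Pool.Agent.Helper57.AKY.Y3.AY k0 k1 k2

theorem KY3_eq : KY3 = Pool.Agent.Helper39.CKX.K3x :=
  (congrArg KA3 Pool.Agent.Helper57.AKY.Y3.AY_eq).trans KA3_eq
theorem FY3_eq : FY3 = Pool.Agent.Helper57.KNK.fam3k :=
  (show FY3 = fa3 Pool.Agent.Helper57.AKY.Y3.AY by unfold FY3; rw [AR3_eq]; rfl).trans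
    ((congrArg fa3 Pool.Agent.Helper57.AKY.Y3.AY_eq).trans fa3_eq)
theorem FQ3_eq : FQ3 = Pool.Agent.Helper57.KNC.fam3q :=
  (show FQ3 = fq3 Pool.Agent.Helper57.AKY.Y3.AY by unfold FQ3; rw [AR3_eq]; rfl).trans
    ((congrArg fq3 Pool.Agent.Helper57.AKY.Y3.AY_eq).trans fq3_eq)
theorem BY3_eq : BY3 = Pool.Agent.Helper57.KNK.chB3k :=
  (show BY3 = cb3 Pool.Agent.Helper57.AKY.Y3.AY by unfold BY3; rw [AR3_eq]; rfl).trans
    ((congrArg cb3 Pool.Agent.Helper57.AKY.Y3.AY_eq).trans cb3_eq)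
theorem BQ3_eq : BQ3 = Pool.Agent.Helper57.KNC.chB3q :=
  (show BQ3 = cq3 Pool.Agent.Helper57.AKY.Y3.AY by unfold BQ3; rw [AR3_eq]; rfl).trans
    ((congrArg cq3 Pool.Agent.Helper57.AKY.Y3.AY_eq).trans cq3_eq)
theorem BS3_eq : BS3 = Pool.Agent.Helper57.KNK.chB3s :=
  (show BS3 = bs3 Pool.Agent.Helper57.AKY.Y3.AY by unfold BS3; rw [AR3_eq]; rfl).trans
    ((congrArg bs3 Pool.Agent.Helper57.AKY.Y3.AY_eq).trans bs3_eq)
theorem QS3_eq : QS3 = Pool.Agent.Helper57.KNC.chB3qs :=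
  (show QS3 = qs3 Pool.Agent.Helper57.AKY.Y3.AY by unfold QS3; rw [AR3_eq]; rfl).trans
    ((congrArg qs3 Pool.Agent.Helper57.AKY.Y3.AY_eq).trans qs3_eq)
theorem CY3_eq (k0 k1 k2 : Mo (PA 3)) : CY3 k0 k1 k2 = mkCls (AK hC3) k0 k1 k2 :=
  congrArg (fun A => mkCls A k0 k1 k2) Pool.Agent.Helper57.AKY.Y3.AY_eq
theorem XY3_eq (k0 k1 k2 : Mo (PA 3)) : XY3 k0 k1 k2 = X3k k0 k1 k2 :=
  (congrArg (fun A => xa3 A k0 k1 k2) Pool.Agent.Helper57.AKY.Y3.AY_eq).trans (xa3_eq k0 k1 k2)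

theorem KZ3_eq : KZ3 = Pool.Agent.Helper86.CK.K3 :=
  (congrArg KB3 Pool.Agent.Helper57.AKY.Y3.AY_eq).trans KB3_eq

/-- AN ACCEPTED TEST WITH THE FAST ALGEBRA, carried over to the old one -/
theorem d3 (k0 k1 k2 : Mo (PA 3))
    (P : M3 → T3 → T3 → BXT (PA 3) (Pr (Pr (Pr Nat))) → BXT (PA 3) (Pr (Pr (Pr Nat))) → (Bool → BXT (PA 3) (Pr (Pr (Pr Nat)))) →
      (Bool → BXT (PA 3) (Pr (Pr (Pr Nat)))) → M3 → Cls (PA 3) → E3 → Bool)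
    (h : P KY3 FY3 FQ3 BY3 BQ3 BS3 QS3 KZ3 (CY3 k0 k1 k2) (XY3 k0 k1 k2) = true) :
    P Pool.Agent.Helper39.CKX.K3x Pool.Agent.Helper57.KNK.fam3k Pool.Agent.Helper57.KNC.fam3q
      Pool.Agent.Helper57.KNK.chB3k Pool.Agent.Helper57.KNC.chB3q Pool.Agent.Helper57.KNK.chB3s
      Pool.Agent.Helper57.KNC.chB3qs Pool.Agent.Helper86.CK.K3 (mkCls (AK hC3) k0 k1 k2)
      (X3k k0 k1 k2) = true := by
  rw [KY3_eq, FY3_eq, FQ3_eq, BY3_eq, BQ3_eq, BS3_eq, QS3_eq, KZ3_eq, CY3_eq,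
    XY3_eq] at h
  exact h

/-! ### depth 4 -/

abbrev M4 := Mc (PA 4) (Pr (Pr (Pr (Pr Nat)))) (PZ 4) (N3 (N3 (N3 (N3 VR)))) (GK 4)
abbrev T4 := (Pr (Pr (Pr (Pr Nat)))) → FDT (Pr (Pr (Pr (Pr Nat)))) → Mo (PA 4) → Mo (PA 4) → Mo (PA 4) → Mo (PA 4) → Mo (PA 4) → Bool
abbrev R4 := Ar (Mo (PA 4)) (H6 (Mo (PA 4)))
abbrev E4 := Pool.Agent.Helper21.KRN.XM (PA 4) (N3 (N3 (N3 (N3 VR))))

def v4 (f : Nat → Z) (T : Pr (Pr (Pr (Pr Nat)))) : Z := uc C3.W (v3 f T.a) (v3 f T.b)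
def w4 (g : Nat → Bool) (T : Pr (Pr (Pr (Pr Nat)))) : Bool :=
  Bool.rec (motive := fun _ => Bool) false (w3 g T.b) (w3 g T.a)
def L4c : Nat := (nat_lit 72057594037927936)
theorem v4_eq (f : Nat → Z) (T : Pr (Pr (Pr (Pr Nat)))) : v4 f T = Uk4.u f T := by
  show uc C3.W (v3 f T.a) (v3 f T.b) =
    Z.add (Uk3.u f T.a) (Z.mul (Z.p C3.W) (Uk3.u f T.b))
  rw [uc_eq, v3_eq, v3_eq]
theorem w4_eq (g : Nat → Bool) (T : Pr (Pr (Pr (Pr Nat)))) : w4 g T = Uk4.b g T := by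
  show Bool.rec (motive := fun _ => Bool) false (w3 g T.b) (w3 g T.a) =
    andB (Uk3.b g T.a) (Uk3.b g T.b)
  rw [w3_eq, w3_eq]
  rfl
theorem c4_eq (c : Cx) : cdL L4c c = cD C4 c := cdL_eq C4 c
theorem p4_h (f : Nat → Cx) (T : Pr (Pr (Pr (Pr Nat)))) (hb : w4 (fun x => cdL L4c (f x)) T = true) :
    PR 4 (fun v => (gU Uk4_ok (fun x => zv (f x).re) T v, gU Uk4_ok (fun x => zv (f x).im) T v))
      (mE Pool.Agent.Helper86.CK.E4 (v4 (fun x => (f x).re) T)) (mE Pool.Agent.Helper86.CK.E4 (v4 (fun x => (f x).im) T)) := by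
  rw [w4_eq, show (fun x => cdL L4c (f x)) = (fun x => cD C4 (f x)) from
    funext fun x => c4_eq (f x)] at hb
  rw [mE_eq, mE_eq, v4_eq, v4_eq]
  exact up_h hC4 Uk4_ok f T hb
/-- the values at the vertices -/
def up4 (f : Nat → Cx) (T : Pr (Pr (Pr (Pr Nat)))) : PA 4 :=
  ⟨fun v => (gU Uk4_ok (fun x => zv (f x).re) T v, gU Uk4_ok (fun x => zv (f x).im) T v), truL 4,
    mE Pool.Agent.Helper86.CK.E4 (v4 (fun x => (f x).re) T), mE Pool.Agent.Helper86.CK.E4 (v4 (fun x => (f x).im) T),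
    w4 (fun x => cdL L4c (f x)) T, false, up_hs Uk4_ok f T, p4_h f T, fls_h⟩
theorem up4_eq : up4 = upK hC4 Uk4_ok := by
  funext f T
  refine Pool.Agent.Helper57.AKY.PA_ext rfl rfl ?_ ?_ ?_ rfl
  · show mE Pool.Agent.Helper86.CK.E4 (v4 (fun x => (f x).re) T) = Z.mul (Z.p Pool.Agent.Helper86.CK.E4) (Uk4.u (fun x => (f x).re) T)
    rw [mE_eq, v4_eq]
  · show mE Pool.Agent.Helper86.CK.E4 (v4 (fun x => (f x).im) T) = Z.mul (Z.p Pool.Agent.Helper86.CK.E4) (Uk4.u (fun x => (f x).im) T)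
    rw [mE_eq, v4_eq]
  · show w4 (fun x => cdL L4c (f x)) T = Uk4.b (fun x => cD C4 (f x)) T
    rw [w4_eq, show (fun x => cdL L4c (f x)) = (fun x => cD C4 (f x)) from
      funext fun x => c4_eq (f x)]

/-- the machine of the programs -/
def KA4 (A : Alg (PA 4)) : M4 :=
  ⟨A, ⟨tsK C4⟩, ⟨up4⟩, ⟨zpK hM4⟩, bilK hS4 Mu4_ok, lkK hS4.1 Lk4_ok,
    psX S4c (shs (nat_lit 81)), (nat_lit 16), (nat_lit 16777216)⟩
/-- the machine of the families -/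
def KB4 (A : Alg (PA 4)) : M4 :=
  ⟨A, ⟨tsK C4⟩, ⟨up4⟩, ⟨zpK hM4⟩, bilK hS4 Mu4_ok, lkK hS4.1 Lk4_ok,
    psK S4c (shs (nat_lit 81)), (nat_lit 16), (nat_lit 16777216)⟩
/-- the arithmetic of the families -/
def ar4 (A : Alg (PA 4)) : R4 :=
  ⟨addM A, subM A, mulM A, conjM A, reT A (LwK C4), imT A (LwK C4), invM A, invOK A, csT A, wdT, nbT,
    fun x => x.r, fun x => (LwK C4).lv x.v [], dotT A, fun x => x, ltK C4 VK⟩
def fa4 (A : Alg (PA 4)) : T4 := famR (KB4 A) Pool.Agent.Helper86.CT.W4 (ar4 A) (fun x => x)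
def fq4 (A : Alg (PA 4)) : T4 := famR (KB4 A) Pool.Agent.Helper86.CT.W4 (arN (ar4 A)) (fun x => x)
def cb4 (A : Alg (PA 4)) : BXT (PA 4) (Pr (Pr (Pr (Pr Nat)))) :=
  chBN (KB4 A) Pool.Agent.Helper86.CT.W4 (ar4 A) (fun x => x)
def cq4 (A : Alg (PA 4)) : BXT (PA 4) (Pr (Pr (Pr (Pr Nat)))) :=
  chBN (KB4 A) Pool.Agent.Helper86.CT.W4 (arN (ar4 A)) (fun x => x)
def bs4 (A : Alg (PA 4)) (s : Bool) : BXT (PA 4) (Pr (Pr (Pr (Pr Nat)))) :=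
  chBNs s (KB4 A) Pool.Agent.Helper86.CT.W4 (ar4 A) (fun x => x)
def qs4 (A : Alg (PA 4)) (s : Bool) : BXT (PA 4) (Pr (Pr (Pr (Pr Nat)))) :=
  chBNs s (KB4 A) Pool.Agent.Helper86.CT.W4 (arN (ar4 A)) (fun x => x)
/-- the run data -/
def qa4 (A : Alg (PA 4)) : Mq (PA 4) (N3 (N3 (N3 (N3 VR)))) := ⟨A, Q4k.V, Q4k.a⟩
def xa4 (A : Alg (PA 4)) (k0 k1 k2 : Mo (PA 4)) : E4 :=
  ⟨qa4 A, Pool.Agent.Helper21.KRN.cN4, Pool.Agent.Helper21.KRN.rC4, k0, k1, k2⟩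

theorem KA4_eq : KA4 (AK hC4) = Pool.Agent.Helper39.CKX.K4x := by
  unfold KA4
  rw [up4_eq]
  rfl
theorem KB4_eq : KB4 (AK hC4) = Pool.Agent.Helper86.CK.K4 := by
  unfold KB4
  rw [up4_eq]
  rfl
theorem ar4_eq : ar4 (AK hC4) = arK hC4 := rfl
theorem fa4_eq : fa4 (AK hC4) = Pool.Agent.Helper57.KNK.fam4k := by
  unfold fa4
  rw [KB4_eq, ar4_eq]
  rfl
theorem fq4_eq : fq4 (AK hC4) = Pool.Agent.Helper57.KNC.fam4q := by
  unfold fq4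
  rw [KB4_eq, ar4_eq]
  rfl
theorem cb4_eq : cb4 (AK hC4) = Pool.Agent.Helper57.KNK.chB4k := by
  unfold cb4
  rw [KB4_eq, ar4_eq]
  rfl
theorem cq4_eq : cq4 (AK hC4) = Pool.Agent.Helper57.KNC.chB4q := by
  unfold cq4
  rw [KB4_eq, ar4_eq]
  rfl
theorem bs4_eq : bs4 (AK hC4) = Pool.Agent.Helper57.KNK.chB4s := by
  unfold bs4
  rw [KB4_eq, ar4_eq]
  rfl
theorem qs4_eq : qs4 (AK hC4) = Pool.Agent.Helper57.KNC.chB4qs := by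
  unfold qs4
  rw [KB4_eq, ar4_eq]
  rfl
theorem xa4_eq (k0 k1 k2 : Mo (PA 4)) : xa4 (AK hC4) k0 k1 k2 = X4k k0 k1 k2 := rfl

/-! the same at `AY` -/
/-- operations of the models -/
def ad4 (f g : Mo (PA 4)) : Mo (PA 4) :=
  ⟨Pool.Agent.Helper57.AKY.Y4.addY f.v g.v, Nat.add f.r g.r, Pool.Agent.Helper57.AKY.Y4.nbY (Pool.Agent.Helper57.AKY.Y4.addY f.v g.v), Pool.Agent.Helper57.AKY.Y4.dfY (Pool.Agent.Helper57.AKY.Y4.addY f.v g.v)⟩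
def sb4 (f g : Mo (PA 4)) : Mo (PA 4) :=
  ⟨Pool.Agent.Helper57.AKY.Y4.subY f.v g.v, Nat.add f.r g.r, Pool.Agent.Helper57.AKY.Y4.nbY (Pool.Agent.Helper57.AKY.Y4.subY f.v g.v), Pool.Agent.Helper57.AKY.Y4.dfY (Pool.Agent.Helper57.AKY.Y4.subY f.v g.v)⟩
def mu4 (f g : Mo (PA 4)) : Mo (PA 4) :=
  ⟨Pool.Agent.Helper57.AKY.Y4.mulY f.v g.v, prad f g, Pool.Agent.Helper57.AKY.Y4.nbY (Pool.Agent.Helper57.AKY.Y4.mulY f.v g.v), Pool.Agent.Helper57.AKY.Y4.dfY (Pool.Agent.Helper57.AKY.Y4.mulY f.v g.v)⟩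
def cj4 (f : Mo (PA 4)) : Mo (PA 4) := ⟨cjK f.v, f.r, f.B, f.l⟩
def re4 (f : Mo (PA 4)) : Mo (PA 4) :=
  ⟨reK f.v, f.r, Pool.Agent.Helper57.AKY.Y4.nbY (reK f.v), Pool.Agent.Helper57.AKY.Y4.dfY (reK f.v)⟩
def im4 (f : Mo (PA 4)) : Mo (PA 4) :=
  ⟨imK f.v, f.r, Pool.Agent.Helper57.AKY.Y4.nbY (imK f.v), Pool.Agent.Helper57.AKY.Y4.dfY (imK f.v)⟩
def cs4 (c : Cx) : Mo (PA 4) :=
  ⟨csK hC4 c, (nat_lit 0), Pool.Agent.Helper57.AKY.Y4.nbY (csK hC4 c), Pool.Agent.Helper57.AKY.Y4.dfY (csK hC4 c)⟩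
def dt4 (x y z a b c : Mo (PA 4)) : Mo (PA 4) :=
  ad4 (mu4 x a) (ad4 (mu4 y b) (mu4 z c))
def KY4 : M4 := KA4 Pool.Agent.Helper57.AKY.Y4.AY
def KZ4 : M4 := KB4 Pool.Agent.Helper57.AKY.Y4.AY
def AR4 : R4 :=
  ⟨ad4, sb4, mu4, cj4, re4, im4, invM Pool.Agent.Helper57.AKY.Y4.AY, invOK Pool.Agent.Helper57.AKY.Y4.AY, cs4, wdT, nbT,
    fun x => x.r, fun x => (LwK C4).lv x.v [], dt4, fun x => x, ltY C4⟩
theorem AR4_eq : AR4 = ar4 Pool.Agent.Helper57.AKY.Y4.AY := by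
  unfold AR4
  rw [ltY_eq]
  rfl
def FY4 : T4 := famR KZ4 Pool.Agent.Helper86.CT.W4 AR4 (fun x => x)
def FQ4 : T4 := famR KZ4 Pool.Agent.Helper86.CT.W4 (arN AR4) (fun x => x)
def BY4 : BXT (PA 4) (Pr (Pr (Pr (Pr Nat)))) := chBN KZ4 Pool.Agent.Helper86.CT.W4 AR4 (fun x => x)
def BQ4 : BXT (PA 4) (Pr (Pr (Pr (Pr Nat)))) := chBN KZ4 Pool.Agent.Helper86.CT.W4 (arN AR4) (fun x => x)
def BS4 : Bool → BXT (PA 4) (Pr (Pr (Pr (Pr Nat)))) := fun s => chBNs s KZ4 Pool.Agent.Helper86.CT.W4 AR4 (fun x => x)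
def QS4 : Bool → BXT (PA 4) (Pr (Pr (Pr (Pr Nat)))) := fun s => chBNs s KZ4 Pool.Agent.Helper86.CT.W4 (arN AR4) (fun x => x)
def CY4 (k0 k1 k2 : Mo (PA 4)) : Cls (PA 4) := mkCls Pool.Agent.Helper57.AKY.Y4.AY k0 k1 k2
def XY4 (k0 k1 k2 : Mo (PA 4)) : E4 := xa4 Pool.Agent.Helper57.AKY.Y4.AY k0 k1 k2

theorem KY4_eq : KY4 = Pool.Agent.Helper39.CKX.K4x :=
  (congrArg KA4 Pool.Agent.Helper57.AKY.Y4.AY_eq).trans KA4_eq
theorem FY4_eq : FY4 = Pool.Agent.Helper57.KNK.fam4k :=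
  (show FY4 = fa4 Pool.Agent.Helper57.AKY.Y4.AY by unfold FY4; rw [AR4_eq]; rfl).trans
    ((congrArg fa4 Pool.Agent.Helper57.AKY.Y4.AY_eq).trans fa4_eq)
theorem FQ4_eq : FQ4 = Pool.Agent.Helper57.KNC.fam4q :=
  (show FQ4 = fq4 Pool.Agent.Helper57.AKY.Y4.AY by unfold FQ4; rw [AR4_eq]; rfl).trans
    ((congrArg fq4 Pool.Agent.Helper57.AKY.Y4.AY_eq).trans fq4_eq)
theorem BY4_eq : BY4 = Pool.Agent.Helper57.KNK.chB4k :=
  (show BY4 = cb4 Pool.Agent.Helper57.AKY.Y4.AY by unfold BY4; rw [AR4_eq]; rfl).trans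
    ((congrArg cb4 Pool.Agent.Helper57.AKY.Y4.AY_eq).trans cb4_eq)
theorem BQ4_eq : BQ4 = Pool.Agent.Helper57.KNC.chB4q :=
  (show BQ4 = cq4 Pool.Agent.Helper57.AKY.Y4.AY by unfold BQ4; rw [AR4_eq]; rfl).trans
    ((congrArg cq4 Pool.Agent.Helper57.AKY.Y4.AY_eq).trans cq4_eq)
theorem BS4_eq : BS4 = Pool.Agent.Helper57.KNK.chB4s :=
  (show BS4 = bs4 Pool.Agent.Helper57.AKY.Y4.AY by unfold BS4; rw [AR4_eq]; rfl).trans
    ((congrArg bs4 Pool.Agent.Helper57.AKY.Y4.AY_eq).trans bs4_eq)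
theorem QS4_eq : QS4 = Pool.Agent.Helper57.KNC.chB4qs :=
  (show QS4 = qs4 Pool.Agent.Helper57.AKY.Y4.AY by unfold QS4; rw [AR4_eq]; rfl).trans
    ((congrArg qs4 Pool.Agent.Helper57.AKY.Y4.AY_eq).trans qs4_eq)
theorem CY4_eq (k0 k1 k2 : Mo (PA 4)) : CY4 k0 k1 k2 = mkCls (AK hC4) k0 k1 k2 :=
  congrArg (fun A => mkCls A k0 k1 k2) Pool.Agent.Helper57.AKY.Y4.AY_eq
theorem XY4_eq (k0 k1 k2 : Mo (PA 4)) : XY4 k0 k1 k2 = X4k k0 k1 k2 :=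
  (congrArg (fun A => xa4 A k0 k1 k2) Pool.Agent.Helper57.AKY.Y4.AY_eq).trans (xa4_eq k0 k1 k2)

theorem KZ4_eq : KZ4 = Pool.Agent.Helper86.CK.K4 :=
  (congrArg KB4 Pool.Agent.Helper57.AKY.Y4.AY_eq).trans KB4_eq

/-- AN ACCEPTED TEST WITH THE FAST ALGEBRA, carried over to the old one -/
theorem d4 (k0 k1 k2 : Mo (PA 4))
    (P : M4 → T4 → T4 → BXT (PA 4) (Pr (Pr (Pr (Pr Nat)))) → BXT (PA 4) (Pr (Pr (Pr (Pr Nat)))) → (Bool → BXT (PA 4) (Pr (Pr (Pr (Pr Nat))))) →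
      (Bool → BXT (PA 4) (Pr (Pr (Pr (Pr Nat))))) → M4 → Cls (PA 4) → E4 → Bool)
    (h : P KY4 FY4 FQ4 BY4 BQ4 BS4 QS4 KZ4 (CY4 k0 k1 k2) (XY4 k0 k1 k2) = true) :
    P Pool.Agent.Helper39.CKX.K4x Pool.Agent.Helper57.KNK.fam4k Pool.Agent.Helper57.KNC.fam4q
      Pool.Agent.Helper57.KNK.chB4k Pool.Agent.Helper57.KNC.chB4q Pool.Agent.Helper57.KNK.chB4s
      Pool.Agent.Helper57.KNC.chB4qs Pool.Agent.Helper86.CK.K4 (mkCls (AK hC4) k0 k1 k2)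
      (X4k k0 k1 k2) = true := by
  rw [KY4_eq, FY4_eq, FQ4_eq, BY4_eq, BQ4_eq, BS4_eq, QS4_eq, KZ4_eq, CY4_eq,
    XY4_eq] at h
  exact h

end Pool.Agent.Helper39.AKY
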